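import Mathlib
import Pool.Agent.Helper83.VG.Defs
import Pool.Agent.Helper83.VF.Pair

/-!
# Eigenfunctions with equal characters on the square of a Fermat hypersurface

Let `ψ` be a function on `X × X`, `X` the Fermat hypersurface of degree `m` in `P^(r-1)`, which
kills the cycles rationally equivalent to zero and is an eigenfunction of the roots of unity with
the same character `b` on both factors. If `b` has no proper part of sum zero then
`ψ (p, q) = (-1) ^ r ψ (q, p)`. The proof is by induction on `r`; the coordinates are exchanged in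
two steps along sections of `X` by linear spaces.
-/

set_option linter.unusedSectionVars false

namespace VG.SS

open VC VP VF Function Polynomial

universe u

variable {k : Type u} [Field k] [IsAlgClosed k] [CharZero k] {m : ℕ} [NeZero m]
  {E : AddChar (ZMod m) k}

/-- Two points of a Fermat hypersurface on a line contained in it. -/
lemma line_path {R : ℕ} {φ : FermatPt k R m → k} (hk : Kills (fermat k R m) φ)
    (B : Finset (Fin R)) {p q : Fin R → k} (hp : p ≠ 0) (hs : ∑ i, p i ^ m = 0) (hq : q ≠ 0)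
    (hs' : ∑ i, q i ^ m = 0) (hB : ∑ i ∈ B, p i ^ m = 0) (h1 : ∀ i, i ∉ B → q i = p i)
    (h2 : ∀ i ∈ B, q i = 0) : φ (pt p hp hs) = φ (pt q hq hs') := by
  have hm : m ≠ 0 := NeZero.ne m
  have hK := ff_ratFunc (k := k)
  set τ : RatFunc k := RatFunc.X with hτd
  have hτ : Transcendental k τ := transcendental_ratX
  set U : Fin R → RatFunc k := fun i => aeval τ (lin (p i) (q i)) with hU
  have e1 : ∀ i, i ∉ B → U i = algebraMap k _ (p i) := by
    intro i hi
    simp only [hU, lin, h1 i hi, map_add, map_mul, aeval_C, map_sub, map_one, aeval_X]; ring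
  have e2 : ∀ i ∈ B, U i = (1 - τ) * algebraMap k _ (p i) := by
    intro i hi
    simp only [hU, lin, h2 i hi, map_add, map_mul, aeval_C, map_sub, map_one, aeval_X, map_zero]
    ring
  have hUm : ∑ i, U i ^ m = 0 := by
    rw [← Finset.sum_add_sum_compl B]
    have f1 : ∑ i ∈ B, U i ^ m = (1 - τ) ^ m * algebraMap k _ (∑ i ∈ B, p i ^ m) := by
      rw [map_sum, Finset.mul_sum]
      exact Finset.sum_congr rfl (fun i hi => by rw [e2 i hi, mul_pow, map_pow])
    have f2 : ∑ i ∈ Bᶜ, U i ^ m = algebraMap k _ (∑ i ∈ Bᶜ, p i ^ m) := by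
      rw [map_sum]
      exact Finset.sum_congr rfl (fun i hi => by
        rw [e1 i (Finset.mem_compl.mp hi), map_pow])
    rw [f1, f2, hB]
    rw [← Finset.sum_add_sum_compl B, hB, zero_add] at hs
    rw [hs, map_zero, mul_zero, add_zero]
  have hU0 : U ≠ 0 := by
    obtain ⟨v, hv⟩ := exists_place hK hτ
    have hv' : IsRes v τ 0 := isRes_zero_iff.mpr hv
    apply res_ne_zero hp (v := v)
    intro i
    have := hv'.poly (p := lin (p i) (q i))
    rwa [lin_zero] at this
  refine path hk hK (pt U hU0 hUm) hτ (zero_ne_one (α := k)) ?_ ?_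
  · intro v hv
    rw [eval_eq hK v hU0 hUm hp hs]
    intro i
    have := hv.poly (p := lin (p i) (q i))
    rwa [lin_zero] at this
  · intro v hv
    rw [eval_eq hK v hU0 hUm hq hs']
    intro i
    have := hv.poly (p := lin (p i) (q i))
    rwa [lin_one] at this

/-- An eigenfunction vanishes at the points for which a proper part of the equation holds. -/
lemma line_zero (hE : IsFull E) {R : ℕ} {φ : FermatPt k R m → k} (hk : Kills (fermat k R m) φ)
    {b : Fin R → ZMod m} (he : Equi E b φ) (hb : ∀ i, b i ≠ 0) {B : Finset (Fin R)}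
    (hne : B.Nonempty) (hne' : B ≠ Finset.univ) {p : Fin R → k} (hp : p ≠ 0)
    (hs : ∑ i, p i ^ m = 0) (h : ∑ i ∈ B, p i ^ m = 0) : φ (pt p hp hs) = 0 := by
  classical
  have hm : m ≠ 0 := NeZero.ne m
  obtain ⟨j, hj⟩ : ∃ j, j ∉ B := by
    by_contra h0
    push Not at h0
    exact hne' (Finset.eq_univ_iff_forall.mpr h0)
  obtain ⟨l, hl⟩ := hne
  by_cases h0 : ∀ i, i ∉ B → p i = 0
  · exact he.zero_coord hE (hb j) hp hs (h0 j hj)
  · push Not at h0
    obtain ⟨i, hi, hi'⟩ := h0
    set q : Fin R → k := fun i => if i ∈ B then 0 else p i with hqd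
    have q1 : ∀ i, i ∉ B → q i = p i := fun i hi => by simp [hqd, hi]
    have q2 : ∀ i ∈ B, q i = 0 := fun i hi => by simp [hqd, hi]
    have hq : q ≠ 0 := fun h1 => hi' (by rw [← q1 i hi, h1]; rfl)
    have hqs : ∑ i, q i ^ m = 0 := by
      rw [← Finset.sum_add_sum_compl B] at hs ⊢
      rw [h, zero_add] at hs
      rw [Finset.sum_eq_zero (fun i hi => by rw [q2 i hi, zero_pow hm]), zero_add, ← hs]
      exact Finset.sum_congr rfl (fun i hi => by rw [q1 i (Finset.mem_compl.mp hi)])
    rw [line_path hk B hp hs hq hqs h q1 q2]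
    exact he.zero_coord hE (hb l) hq hqs (q2 l hl)

section sec

variable {R r' : ℕ} {σ : Fin R → Fin r'} {ρ : Fin r' → Fin R} {star : Fin r'}

/-- The coefficients of the section. -/
def cf (σ : Fin R → Fin r') (star : Fin r') (p : Fin R → k) (c : k) : Fin R → k :=
  fun l => if σ l = star then p l / c else 1

/-- The coordinates of a point of the section. -/
def red (ρ : Fin r' → Fin R) (star : Fin r') (p : Fin R → k) (c : k) : Fin r' → k :=
  fun j => if j = star then c else p (ρ j)

lemma isMono_cf (hρ : ∀ j, σ (ρ j) = j) (hσ : ∀ l, σ l ≠ star → ρ (σ l) = l) {p : Fin R → k}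
    {c : k} (hc : c ^ m ≠ 0) (h : c ^ m = ∑ l with σ l = star, p l ^ m) :
    IsMono m σ (cf σ star p c) := by
  intro j
  by_cases hj : j = star
  · subst hj
    have e : ∀ l ∈ Finset.univ.filter (fun l => σ l = j), cf σ j p c l ^ m = p l ^ m / c ^ m := by
      intro l hl
      rw [cf, if_pos (Finset.mem_filter.mp hl).2, div_pow]
    rw [Finset.sum_congr rfl e, ← Finset.sum_div, ← h, div_self hc]
  · have e : Finset.univ.filter (fun l => σ l = j) = {ρ j} := by
      ext l
      rw [Finset.mem_filter, Finset.mem_singleton]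
      constructor
      · rintro ⟨-, rfl⟩
        exact (hσ l hj).symm
      · rintro rfl
        exact ⟨Finset.mem_univ _, hρ j⟩
    rw [e, Finset.sum_singleton, cf, hρ, if_neg hj, one_pow]

/-- The product of the coefficients and the coordinates. -/
lemma cf_mul_red (hσ : ∀ l, σ l ≠ star → ρ (σ l) = l) {p q : Fin R → k} {c d : k} (l : Fin R) :
    cf σ star p c l * red ρ star q d (σ l) = if σ l = star then p l / c * d else q l := by
  unfold cf red
  split_ifs with h
  · rfl
  · rw [one_mul, hσ l h]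

lemma red_ne {p : Fin R → k} {c : k} (hc : c ≠ 0) : red ρ star p c ≠ 0 := by
  intro h
  apply hc
  have := congrFun h star
  simpa [red] using this

lemma red_sum (hρ : ∀ j, σ (ρ j) = j) (hσ : ∀ l, σ l ≠ star → ρ (σ l) = l) {p : Fin R → k}
    {c : k} (hc : c ^ m ≠ 0) (hc0 : c ≠ 0) (h : c ^ m = ∑ l with σ l = star, p l ^ m)
    (hs : ∑ l, p l ^ m = 0) : ∑ j, red ρ star p c j ^ m = 0 := by
  have h1 := isMono_cf (m := m) hρ hσ hc h
  have h2 : ∑ j, red ρ star p c j ^ m = ∑ l, (cf σ star p c l * red ρ star p c (σ l)) ^ m := by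
    rw [← Finset.sum_fiberwise_of_maps_to (s := Finset.univ) (t := Finset.univ) (g := σ)
      (fun _ _ => Finset.mem_univ _)]
    apply Finset.sum_congr rfl
    intro j _
    have e : ∀ l ∈ Finset.univ.filter (fun l => σ l = j),
        (cf σ star p c l * red ρ star p c (σ l)) ^ m = cf σ star p c l ^ m * red ρ star p c j ^ m
        := by
      intro l hl
      rw [(Finset.mem_filter.mp hl).2, mul_pow]
    rw [Finset.sum_congr rfl e, ← Finset.sum_mul, h1 j, one_mul]
  rw [h2, ← hs]
  apply Finset.sum_congr rfl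
  intro l _
  rw [cf_mul_red hσ]
  split_ifs with h
  · rw [div_mul_cancel₀ _ hc0]
  · rfl

/-- The statement about swapping the two factors, for a given number of coordinates. -/
def SwapSign (E : AddChar (ZMod m) k) (r : ℕ) (ε : k) : Prop :=
  ∀ (b : Fin r → ZMod m) (ψ : FermatPt k r m × FermatPt k r m → k),
    Kills ((fermat k r m).prod (fermat k r m)) ψ → Equi2 E b b ψ →
    (∀ S : Finset (Fin r), S.Nonempty → S ≠ Finset.univ → ∑ i ∈ S, b i ≠ 0) → ∑ i, b i = 0 →
    ∀ p q, ψ (p, q) = ε * ψ (q, p)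

/-- Exchange of the coordinates in the fibre of `star`. -/
theorem exchange {ε : k} (hS : SwapSign E r' ε) (hρ : ∀ j, σ (ρ j) = j)
    (hσ : ∀ l, σ l ≠ star → ρ (σ l) = l) {ψ : FermatPt k R m × FermatPt k R m → k}
    (hk : Kills ((fermat k R m).prod (fermat k R m)) ψ) {b : Fin R → ZMod m}
    (he : Equi2 E b b ψ)
    (hb : ∀ S : Finset (Fin R), S.Nonempty → S ≠ Finset.univ → ∑ i ∈ S, b i ≠ 0)
    (h0 : ∑ i, b i = 0) {μ : k} (hμ : μ ≠ 0)
    {p q p' q' : Fin R → k} (hp : p ≠ 0) (hs : ∑ i, p i ^ m = 0) (hq : q ≠ 0)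
    (ht : ∑ i, q i ^ m = 0) (hp' : p' ≠ 0) (hs' : ∑ i, p' i ^ m = 0) (hq' : q' ≠ 0)
    (ht' : ∑ i, q' i ^ m = 0) (hne : ∑ l with σ l = star, p l ^ m ≠ 0)
    (h : ∑ l with σ l = star, q l ^ m = μ ^ m * ∑ l with σ l = star, p l ^ m)
    (h1 : ∀ l, p' l = if σ l = star then μ * p l else q l)
    (h2 : ∀ l, q' l = if σ l = star then q l / μ else p l) :
    ψ (pt p hp hs, pt q hq ht) = ε * ψ (pt p' hp' hs', pt q' hq' ht') := by
  classical
  have hm : m ≠ 0 := NeZero.ne m
  obtain ⟨c, hc⟩ := exists_root hm (∑ l with σ l = star, p l ^ m)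
  have hcm : c ^ m ≠ 0 := by rw [hc]; exact hne
  have hc0 : c ≠ 0 := by
    rintro rfl
    exact hcm (zero_pow hm)
  have hc' : (μ * c) ^ m = ∑ l with σ l = star, q l ^ m := by rw [h, mul_pow, hc]
  have hcm' : (μ * c) ^ m ≠ 0 := by rw [mul_pow]; exact mul_ne_zero (pow_ne_zero _ hμ) hcm
  have hc0' : μ * c ≠ 0 := mul_ne_zero hμ hc0
  have hM := isMono_cf (m := m) hρ hσ hcm hc
  have hM' := isMono_cf (m := m) hρ hσ hcm' hc'
  have hfib : ∀ S : Finset (Fin r'), ∑ j ∈ S, ∑ i with σ i = j, b i =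
      ∑ i ∈ Finset.univ.filter (fun i => σ i ∈ S), b i := by
    intro S
    rw [← Finset.sum_fiberwise_of_maps_to (s := Finset.univ.filter (fun i => σ i ∈ S)) (t := S)
      (g := σ) (fun i hi => (Finset.mem_filter.mp hi).2)]
    apply Finset.sum_congr rfl
    intro j hj
    apply Finset.sum_congr _ (fun _ _ => rfl)
    ext i
    simp only [Finset.mem_filter, Finset.mem_univ, true_and]
    exact ⟨fun h => ⟨by rw [h]; exact hj, h⟩, fun h => h.2⟩
  set X : FermatPt k r' m := pt (red ρ star p c) (red_ne hc0) (red_sum hρ hσ hcm hc0 hc hs) with hX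
  set Y : FermatPt k r' m := pt (red ρ star q (μ * c)) (red_ne hc0')
    (red_sum hρ hσ hcm' hc0' hc' ht) with hY
  have key := hS (fun j => ∑ i with σ i = j, b i) _ (hk.comp_mono hM hM') (he.comp_mono hM hM')
    (fun S hS1 hS2 => by
      rw [hfib]
      apply hb
      · obtain ⟨j, hj⟩ := hS1
        exact ⟨ρ j, by rw [Finset.mem_filter, hρ]; exact ⟨Finset.mem_univ _, hj⟩⟩
      · intro h3
        apply hS2
        rw [Finset.eq_univ_iff_forall]
        intro j
        have := Finset.mem_filter.mp (h3 ▸ Finset.mem_univ (ρ j))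
        rw [hρ] at this
        exact this.2)
    (by rw [hfib, ← h0]; simp)
    X Y
  have z1 : ∀ {a b : Fin R → k} (ha : a ≠ 0) (hb : b ≠ 0) (ha' : ∑ i, a i ^ m = 0)
      (hb' : ∑ i, b i ^ m = 0), a = b → pt a ha ha' = pt b hb hb' := by
    rintro a b ha hb ha' hb' rfl
    rfl
  have w1 : mono hM X = pt p hp hs := by
    rw [hX, mono_pt']
    apply z1
    funext l
    rw [cf_mul_red hσ]
    split_ifs
    · rw [div_mul_cancel₀ _ hc0]
    · rfl
  have w2 : mono hM' Y = pt q hq ht := by
    rw [hY, mono_pt']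
    apply z1
    funext l
    rw [cf_mul_red hσ]
    split_ifs
    · rw [div_mul_cancel₀ _ hc0']
    · rfl
  have w3 : mono hM Y = pt p' hp' hs' := by
    rw [hY, mono_pt']
    apply z1
    funext l
    rw [cf_mul_red hσ, h1]
    split_ifs
    · field_simp
    · rfl
  have w4 : mono hM' X = pt q' hq' ht' := by
    rw [hX, mono_pt']
    apply z1
    funext l
    rw [cf_mul_red hσ, h2]
    split_ifs
    · field_simp
    · rfl
  beta_reduce at key
  rwa [w1, w2, w3, w4] at key

end sec

/-- The step of the induction. -/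
theorem swapSign_succ (hE : IsFull E) {n : ℕ} (hn : 3 ≤ n) {ε : k} (h3 : SwapSign E 3 (-1))
    (hS : SwapSign E n ε) : SwapSign E (n + 1) (-ε) := by
  classical
  intro b ψ hk he hb h0 P Q
  have hm : m ≠ 0 := NeZero.ne m
  obtain ⟨p, hp, hs, rfl⟩ := exists_pt P
  obtain ⟨q, hq, ht, rfl⟩ := exists_pt Q
  have hbl : ∀ i, b i ≠ 0 := by
    intro i
    have h := hb {i} (Finset.singleton_nonempty i) (fun h1 => by
      have h2 := congrArg Finset.card h1
      rw [Finset.card_singleton, Finset.card_univ, Fintype.card_fin] at h2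
      omega)
    rwa [Finset.sum_singleton] at h
  -- the two sections
  set star : Fin n := ⟨n - 1, by omega⟩ with hstar
  set σ : Fin (n + 1) → Fin n := fun l => if h : l.val < n then ⟨l.val, h⟩ else star with hσd
  have hρ : ∀ j, σ (Fin.castSucc j) = j := by
    intro j
    have : (Fin.castSucc j).val < n := j.2
    simp [hσd]
  have hσs : ∀ l : Fin (n + 1), σ l = star ↔ l.val = n - 1 ∨ l.val = n := by
    intro l
    have hl := l.2
    by_cases h : l.val < n
    · simp only [hσd, h, dif_pos, hstar, Fin.mk.injEq]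
      omega
    · simp only [hσd, h, dif_neg, not_false_eq_true, true_iff]
      omega
  have hσ : ∀ l, σ l ≠ star → Fin.castSucc (σ l) = l := by
    intro l hl
    have hl' := l.2
    have h1 : ¬ (l.val = n - 1 ∨ l.val = n) := fun h => hl ((hσs l).mpr h)
    have h : l.val < n := by omega
    apply Fin.ext
    simp [hσd, h]
  set σ₂ : Fin (n + 1) → Fin 3 := fun l => if l.val = n - 1 then 0 else if l.val = n then 1 else 2
    with hσ₂d
  set ρ₂ : Fin 3 → Fin (n + 1) := ![⟨n - 1, by omega⟩, ⟨n, by omega⟩, ⟨0, by omega⟩] with hρ₂d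
  have hρ₂ : ∀ j, σ₂ (ρ₂ j) = j := by
    intro j
    fin_cases j
    · simp [hσ₂d, hρ₂d]
    · have : n ≠ n - 1 := by omega
      simp [hσ₂d, hρ₂d, this]
    · have h1 : 0 ≠ n - 1 := by omega
      have h2 : 0 ≠ n := by omega
      simp [hσ₂d, hρ₂d, h1, h2]
  have hσ₂s : ∀ l : Fin (n + 1), σ₂ l = 2 ↔ ¬ (l.val = n - 1 ∨ l.val = n) := by
    intro l
    by_cases h1 : l.val = n - 1
    · simp [hσ₂d, h1]
    · by_cases h2 : l.val = n
      · have : n ≠ n - 1 := by omega
        simp [hσ₂d, h2, this]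
      · simp [hσ₂d, h1, h2]
  have hσ₂ : ∀ l, σ₂ l ≠ 2 → ρ₂ (σ₂ l) = l := by
    intro l hl
    have hl1 := mt (hσ₂s l).mpr hl
    rw [not_not] at hl1
    by_cases h1 : l.val = n - 1
    · apply Fin.ext
      simp [hσ₂d, hρ₂d, h1]
    · have h2 := hl1.resolve_left h1
      have h3 : n ≠ n - 1 := by omega
      apply Fin.ext
      simp [hσ₂d, hρ₂d, h2, h3]
  set B : Finset (Fin (n + 1)) := Finset.univ.filter (fun l => σ l = star) with hB
  have hBc : Finset.univ.filter (fun l => σ₂ l = 2) = Bᶜ := by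
    ext l
    simp only [hB, Finset.mem_filter, Finset.mem_univ, true_and, Finset.mem_compl, hσ₂s, hσs]
  have hB1 : B.Nonempty := ⟨Fin.castSucc star, by simp [hB, hρ]⟩
  have hB2 : B ≠ Finset.univ := by
    intro h
    have h1 : (⟨0, by omega⟩ : Fin (n + 1)) ∈ B := h ▸ Finset.mem_univ _
    rw [hB, Finset.mem_filter, hσs] at h1
    have h2 := h1.2
    simp only at h2
    omega
  by_cases hp0 : ∑ i ∈ B, p i ^ m = 0
  · have e1 := line_zero hE (hk.comp (induced_left (pt q hq ht))) (he.1 _) hbl hB1 hB2 hp hs hp0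
    have e2 := line_zero hE (hk.comp (induced_right (pt q hq ht))) (he.2 _) hbl hB1 hB2 hp hs hp0
    beta_reduce at e1 e2
    rw [e1, e2, mul_zero]
  by_cases hq0 : ∑ i ∈ B, q i ^ m = 0
  · have e1 := line_zero hE (hk.comp (induced_left (pt p hp hs))) (he.1 _) hbl hB1 hB2 hq ht hq0
    have e2 := line_zero hE (hk.comp (induced_right (pt p hp hs))) (he.2 _) hbl hB1 hB2 hq ht hq0
    beta_reduce at e1 e2
    rw [e1, e2, mul_zero]
  obtain ⟨μ, hμm⟩ := exists_root hm ((∑ i ∈ B, q i ^ m) / ∑ i ∈ B, p i ^ m)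
  have hμ : μ ≠ 0 := by
    rintro rfl
    rw [zero_pow hm] at hμm
    exact div_ne_zero hq0 hp0 hμm.symm
  have hμ1 : ∑ i ∈ B, q i ^ m = μ ^ m * ∑ i ∈ B, p i ^ m := by
    rw [hμm, div_mul_cancel₀ _ hp0]
  have hsB : ∑ i ∈ Bᶜ, p i ^ m = -∑ i ∈ B, p i ^ m := by
    rw [← Finset.sum_add_sum_compl B] at hs
    linear_combination hs
  have htB : ∑ i ∈ Bᶜ, q i ^ m = -∑ i ∈ B, q i ^ m := by
    rw [← Finset.sum_add_sum_compl B] at ht
    linear_combination ht
  have hmB : ∀ l, l ∈ B ↔ σ l = star := fun l => by simp [hB]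
  set p' : Fin (n + 1) → k := fun l => if σ l = star then μ * p l else q l with hp'd
  set q' : Fin (n + 1) → k := fun l => if σ l = star then q l / μ else p l with hq'd
  have hp'B : ∑ i ∈ B, p' i ^ m = ∑ i ∈ B, q i ^ m := by
    rw [hμ1, Finset.mul_sum]
    exact Finset.sum_congr rfl (fun i hi => by
      rw [hp'd]; simp only [(hmB i).mp hi, if_true]; rw [mul_pow])
  have hp'C : ∑ i ∈ Bᶜ, p' i ^ m = ∑ i ∈ Bᶜ, q i ^ m :=
    Finset.sum_congr rfl (fun i hi => by
      rw [hp'd]; simp only [mt (hmB i).mpr (Finset.mem_compl.mp hi), if_false])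
  have hq'B : ∑ i ∈ B, q' i ^ m = ∑ i ∈ B, p i ^ m := by
    apply mul_left_cancel₀ (pow_ne_zero m hμ)
    rw [← hμ1, Finset.mul_sum]
    exact Finset.sum_congr rfl (fun i hi => by
      rw [hq'd]; simp only [(hmB i).mp hi, if_true]
      rw [div_pow, mul_div_cancel₀ _ (pow_ne_zero m hμ)])
  have hq'C : ∑ i ∈ Bᶜ, q' i ^ m = ∑ i ∈ Bᶜ, p i ^ m :=
    Finset.sum_congr rfl (fun i hi => by
      rw [hq'd]; simp only [mt (hmB i).mpr (Finset.mem_compl.mp hi), if_false])
  have hp' : p' ≠ 0 := by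
    intro h
    apply hq0
    rw [← hp'B, h]
    simp [hm]
  have hq' : q' ≠ 0 := by
    intro h
    apply hp0
    rw [← hq'B, h]
    simp [hm]
  have hs' : ∑ i, p' i ^ m = 0 := by
    rw [← Finset.sum_add_sum_compl B, hp'B, hp'C, Finset.sum_add_sum_compl, ht]
  have ht' : ∑ i, q' i ^ m = 0 := by
    rw [← Finset.sum_add_sum_compl B, hq'B, hq'C, Finset.sum_add_sum_compl, hs]
  have hp2 : (fun l => μ⁻¹ * q l) ≠ 0 := by
    obtain ⟨j, hj⟩ := Function.ne_iff.mp hq
    exact fun h => mul_ne_zero (inv_ne_zero hμ) hj (congrFun h j)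
  have hq2 : (fun l => μ * p l) ≠ 0 := by
    obtain ⟨j, hj⟩ := Function.ne_iff.mp hp
    exact fun h => mul_ne_zero hμ hj (congrFun h j)
  have hs2 : ∑ i, (μ⁻¹ * q i) ^ m = 0 := by
    simp only [mul_pow, ← Finset.mul_sum]
    rw [ht, mul_zero]
  have ht2 : ∑ i, (μ * p i) ^ m = 0 := by
    simp only [mul_pow, ← Finset.mul_sum]
    rw [hs, mul_zero]
  have e1 := exchange hS hρ hσ hk he hb h0 hμ hp hs hq ht hp' hs' hq' ht' hp0 hμ1
    (fun l => rfl) (fun l => rfl)
  have e2 := exchange h3 (star := (2 : Fin 3)) hρ₂ hσ₂ hk he hb h0 (inv_ne_zero hμ) hp' hs' hq'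
    ht' hp2 hs2 hq2 ht2
    (by rw [hBc, hp'C, htB]; exact neg_ne_zero.mpr hq0)
    (by
      rw [hBc, hp'C, hq'C, htB, hsB, hμ1, inv_pow, mul_neg, ← mul_assoc,
        inv_mul_cancel₀ (pow_ne_zero m hμ), one_mul])
    (fun l => by
      by_cases h : σ l = star
      · have h' : ¬ σ₂ l = 2 := by rw [hσ₂s, not_not, ← hσs]; exact h
        rw [if_neg h', hq'd]
        simp only [h, if_true]
        rw [div_eq_inv_mul]
      · have h' : σ₂ l = 2 := by rw [hσ₂s, ← hσs]; exact h
        rw [if_pos h', hp'd]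
        simp only [h, if_false])
    (fun l => by
      by_cases h : σ l = star
      · have h' : ¬ σ₂ l = 2 := by rw [hσ₂s, not_not, ← hσs]; exact h
        rw [if_neg h', hp'd]
        simp only [h, if_true]
      · have h' : σ₂ l = 2 := by rw [hσ₂s, ← hσs]; exact h
        rw [if_pos h', hq'd]
        simp only [h, if_false]
        rw [div_inv_eq_mul, mul_comm])
  have z1 : pt (fun l => μ⁻¹ * q l) hp2 hs2 = pt q hq ht := by
    rw [pt_eq_iff]
    exact ⟨μ⁻¹, fun i => rfl⟩
  have z2 : pt (fun l => μ * p l) hq2 ht2 = pt p hp hs := by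
    rw [pt_eq_iff]
    exact ⟨μ, fun i => rfl⟩
  rw [z1, z2] at e2
  rw [e1, e2]
  ring

end VG.SS

namespace VG

open VC VP VF VG.SS

universe u

variable {k : Type u} [Field k] [IsAlgClosed k] [CharZero k] {m : ℕ} [NeZero m]
  {E : AddChar (ZMod m) k}

/-- **Swapping the factors.** An eigenfunction on the square of a Fermat hypersurface with equal
characters without proper zero-sum parts is multiplied by `(-1) ^ r` when the factors are
swapped. -/
theorem swap_sign (hE : IsFull E) {r : ℕ} (hr : 3 ≤ r) {b : Fin r → ZMod m}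
    {ψ : FermatPt k r m × FermatPt k r m → k}
    (hk : Kills ((fermat k r m).prod (fermat k r m)) ψ) (he : Equi2 E b b ψ)
    (hb : ∀ S : Finset (Fin r), S.Nonempty → S ≠ Finset.univ → ∑ i ∈ S, b i ≠ 0)
    (h0 : ∑ i, b i = 0) (p q : FermatPt k r m) : ψ (p, q) = (-1) ^ r * ψ (q, p) := by
  have h3 : SwapSign E 3 (-1) := by
    intro b ψ hk he hb _ p q
    have hbl : ∀ i, b i ≠ 0 := by
      intro i
      have h := hb {i} (Finset.singleton_nonempty i) (fun h1 => by
        have h2 := congrArg Finset.card h1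
        rw [Finset.card_singleton, Finset.card_univ, Fintype.card_fin] at h2
        omega)
      rwa [Finset.sum_singleton] at h
    linear_combination swap_same hE hk he hbl p q
  have key : ∀ r, 3 ≤ r → SwapSign E r ((-1) ^ r) := by
    intro r hr
    induction r, hr using Nat.le_induction with
    | base =>
      have : ((-1 : k)) ^ 3 = -1 := by norm_num
      rw [this]
      exact h3
    | succ n hn ih =>
      have := swapSign_succ hE hn h3 ih
      rwa [pow_succ, mul_neg_one]
  exact key r hr b ψ hk he hb h0 p q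

end VG
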